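import Pool.Agent.W622.ETG.Lin

set_option autoImplicit false
set_option linter.unusedSectionVars false

/-! Project ELG (helper622), part N3: no minimal configuration of dimension at most three. -/

namespace Pool.Agent.W140.ELG

open Pool.Agent.W622.ETG Module

section
variable {V : Type} [AddCommGroup V] [Module (ZMod 2) V]

/-- the values of `A` at `x` -/
def iv (A : Fam V) (x : V) : DSub V := Submodule.map (LinearMap.applyₗ x) A

lemma mem_iv {A : Fam V} {x : V} {f : Dl V} : f ∈ iv A x ↔ ∃ ω ∈ A, ω x = f := Iff.rfl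

lemma az {v w : V} : v + w = 0 ↔ v = w := Pool.Agent.W622.ETC.add_eq_zero'

lemma mkB [Finite V] (hn : finrank (ZMod 2) V ≤ 3) {a b c : V} (ha : a ≠ 0) (hb : b ≠ 0)
    (hba : b ≠ a) (hc : c ≠ 0) (hca : c ≠ a) (hcb : c ≠ b) (hcab : c ≠ a + b) :
    ∃ B : Basis (Fin 3) (ZMod 2) V, B 0 = a ∧ B 1 = b ∧ B 2 = c := by
  have hli : LinearIndependent (ZMod 2) ![a, b, c] := by
    rw [Fintype.linearIndependent_iff]
    intro g hg
    rw [Fin.sum_univ_three] at hg
    have hg' : g 0 • a + g 1 • b + g 2 • c = 0 := hg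
    have key : g 0 = 0 ∧ g 1 = 0 ∧ g 2 = 0 := by
      rcases z01 (g 0) with h0 | h0 <;> rcases z01 (g 1) with h1 | h1 <;>
        rcases z01 (g 2) with h2 | h2 <;> rw [h0, h1, h2] at hg' <;>
        simp only [zero_smul, one_smul, zero_add, add_zero] at hg'
      · exact ⟨h0, h1, h2⟩
      · exact absurd hg' hc
      · exact absurd hg' hb
      · exact absurd (az.1 hg') hcb.symm
      · exact absurd hg' ha
      · exact absurd (az.1 hg') hca.symm
      · exact absurd (az.1 hg') hba.symm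
      · exact absurd (az.1 hg') hcab.symm
    intro i
    fin_cases i
    · exact key.1
    · exact key.2.1
    · exact key.2.2
  have h3 : Fintype.card (Fin 3) = finrank (ZMod 2) V := by
    have h1 : 3 ≤ finrank (ZMod 2) V := by simpa using hli.fintype_card_le_finrank
    have h2 : Fintype.card (Fin 3) = 3 := Fintype.card_fin 3
    omega
  refine ⟨basisOfLinearIndependentOfCardEqFinrank hli h3, ?_, ?_, ?_⟩ <;>
    rw [coe_basisOfLinearIndependentOfCardEqFinrank] <;> rfl

variable {e : V} {A : Fam V}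

lemma one_el (hA : EFam e A) (h : ∀ ω ∈ A, ∀ η ∈ A, ω ≠ 0 → η ≠ 0 → ω = η) : El e A := by
  by_cases h0 : ∃ ω ∈ A, ω ≠ 0
  · obtain ⟨ω, hω, hω0⟩ := h0
    have : A = Submodule.span (ZMod 2) {ω} := by
      apply le_antisymm
      · intro η hη
        rw [span_one_mem (M := Frm V)]
        by_cases h1 : η = 0
        · exact Or.inl h1
        · exact Or.inr (h η hη ω hω h1 hω0)
      · rw [Submodule.span_singleton_le_iff_mem]; exact hω
    rw [this]
    exact El.loc ω (hA ω hω)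
  · push Not at h0
    have : A = ⊥ := by
      rw [eq_bot_iff]
      intro ω hω
      exact (Submodule.mem_bot _).2 (h0 ω hω)
    rw [this]; exact El.zero

variable [Finite V]

lemma kk (hMC : MC e A) {x : V} (hx : x ≠ 0) (h : ∀ ω ∈ A, ω x = 0) : False := by
  have h1 : supp A ≤ ann x := supp_le.2 fun ω hω a => (hMC.ef ω hω).mem_ann (h ω hω) a
  rw [hMC.top] at h1
  exact ann_ne_top hx (top_le_iff.1 h1)

lemma spl (hMC : MC e A) {b : V} {s : Dl V} (hb : b ≠ 0) (hsb : s b = 1) (hse : s e = 1)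
    (hs : sqf s ∈ A) (h : ∀ ω ∈ A, ω b = 0 ∨ ω b = s) : False := by
  apply hMC.nel
  have hA : A = res A (ann b) ⊔ Submodule.span (ZMod 2) {sqf s} := by
    apply le_antisymm
    · intro ω hω
      rcases h ω hω with h1 | h1
      · exact Submodule.mem_sup_left ((mem_res_ann hMC.ef).2 ⟨hω, h1⟩)
      · have h2 : ω + sqf s ∈ res A (ann b) := by
          rw [mem_res_ann hMC.ef]
          refine ⟨A.add_mem hω hs, ?_⟩
          rw [LinearMap.add_apply, h1, sqf_apply, hsb, one_smul, vadd]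
        have h3 : ω = (ω + sqf s) + sqf s := (add_cancel' (V := Frm V) _ _).symm
        rw [h3]
        exact Submodule.add_mem_sup h2 (Submodule.mem_span_singleton_self _)
    · refine sup_le (res_le _ _) ?_
      rw [Submodule.span_singleton_le_iff_mem]; exact hs
  rw [hA]
  refine El.prod _ _ (hMC.el _ (ann_ne_top hb)) (El.loc _ (sqf_ef hse)) ?_
  refine Disjoint.mono_left (supp_res_le _ _) ?_
  have : supp (Submodule.span (ZMod 2) {sqf s}) ≤ Submodule.span (ZMod 2) {s} := by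
    rw [supp_le]
    intro ω hω a
    rcases (span_one_mem (M := Frm V)).1 hω with rfl | rfl
    · exact Submodule.zero_mem _
    · rw [sqf_apply]; exact Submodule.smul_mem _ _ (Submodule.mem_span_singleton_self s)
  refine Disjoint.mono_right this ?_
  rw [Submodule.disjoint_def]
  intro f hf hf'
  rcases span_one_mem.1 hf' with rfl | rfl
  · rfl
  · rw [mem_ann, hsb] at hf
    exact absurd hf (by decide)

lemma rr (hRIG : S_RIG) (hMC : MC e A) {u : V} (hu : u ≠ 0) (hue : u ≠ e) :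
    (∃ y : V, y ≠ 0 ∧ y ≠ u + e ∧ ∀ ω ∈ A, ω u y = 0) ∨
    (∃ y : V, y ≠ 0 ∧ y ≠ u ∧ ∀ ω ∈ A, ω (u + e) y = 0) := by
  by_contra hc
  push Not at hc
  obtain ⟨h1, h2⟩ := hc
  refine hMC.nel (hRIG V e A u hMC.ef hMC.her hu hue ?_ ?_ (hMC.el _ (ann_ne_top hu)))
  · intro f hf
    have : f ∈ iv A u := by
      refine mem_of_coann fun b hb => ?_
      by_cases hb0 : b = 0
      · rw [hb0, map_zero]
      by_cases hbe : b = u + e
      · rw [hbe]; exact hf
      obtain ⟨ω, hω, hω1⟩ := h1 b hb0 hbe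
      exact absurd (hb (ω u) ⟨ω, hω, rfl⟩) hω1
    exact mem_iv.1 this
  · intro f hf
    have : f ∈ iv A (u + e) := by
      refine mem_of_coann fun b hb => ?_
      by_cases hb0 : b = 0
      · rw [hb0, map_zero]
      by_cases hbe : b = u
      · rw [hbe]; exact hf
      obtain ⟨ω, hω, hω1⟩ := h2 b hb0 hbe
      exact absurd (hb (ω (u + e)) ⟨ω, hω, rfl⟩) hω1
    exact mem_iv.1 this

/-- one of `u`, `u + e` has an orthogonal vector -/
lemma rr' (hRIG : S_RIG) (hMC : MC e A) {u : V} (hu : u ≠ 0) (hue : u ≠ e) :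
    ∃ x : V, (x = u ∨ x = u + e) ∧ x ≠ 0 ∧ x ≠ e ∧ ∃ y : V, y ≠ 0 ∧ y ≠ x + e ∧
      ∀ ω ∈ A, ω x y = 0 := by
  rcases rr hRIG hMC hu hue with ⟨y, hy0, hy1, hy⟩ | ⟨y, hy0, hy1, hy⟩
  · exact ⟨u, Or.inl rfl, hu, hue, y, hy0, hy1, hy⟩
  · refine ⟨u + e, Or.inr rfl, fun h => hue (az.1 h), fun h => hu ?_, y, hy0, ?_, hy⟩
    · have h1 := congrArg (· + e) h
      simp only [add_cancel', vadd] at h1
      exact h1
    · rw [add_cancel']; exact hy1

/-- the combinatorial core in the diagonal case -/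
lemma comb (P : ZMod 2 → ZMod 2 → ZMod 2 → Prop) (h100 : ¬ P 1 0 0) (h010 : ¬ P 0 1 0)
    (h001 : ¬ P 0 0 1)
    (hadd : ∀ a b c a' b' c', P a b c → P a' b' c' → P (a + a') (b + b') (c + c'))
    (hl0 : ¬ (P 1 1 0 ∧ P 1 0 1)) (hl1 : ¬ (P 1 1 0 ∧ P 0 1 1)) (hl2 : ¬ (P 1 0 1 ∧ P 0 1 1))
    (a b c a' b' c' : ZMod 2) (h : P a b c) (h' : P a' b' c') (h0 : ¬ (a = 0 ∧ b = 0 ∧ c = 0))
    (h0' : ¬ (a' = 0 ∧ b' = 0 ∧ c' = 0)) : a = a' ∧ b = b' ∧ c = c' := by
  have h11 : (1 : ZMod 2) + 1 = 0 := by decide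
  have h10 : (1 : ZMod 2) ≠ 0 := by decide
  have hs := hadd _ _ _ _ _ _ h h'
  rcases z01 a with rfl | rfl <;> rcases z01 b with rfl | rfl <;> rcases z01 c with rfl | rfl <;>
    rcases z01 a' with rfl | rfl <;> rcases z01 b' with rfl | rfl <;>
    rcases z01 c' with rfl | rfl <;>
    simp only [h11, zero_add, add_zero, not_and, and_self, not_true_eq_false, and_true,
      zero_ne_one, h10, not_false_eq_true, and_false] at * <;>
    first
    | trivial
    | exact h100 h
    | exact h100 h'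
    | exact h100 hs
    | exact h010 h
    | exact h010 h'
    | exact h010 hs
    | exact h001 h
    | exact h001 h'
    | exact h001 hs
    | exact hl0 h h'
    | exact hl0 h' h
    | exact hl1 h h'
    | exact hl1 h' h
    | exact hl2 h h'
    | exact hl2 h' h

/-- ext for forms on a basis of three vectors -/
lemma fext (B : Basis (Fin 3) (ZMod 2) V) {ω η : Frm V} (hω : EF e ω) (hη : EF e η)
    (h00 : ω (B 0) (B 0) = η (B 0) (B 0)) (h11 : ω (B 1) (B 1) = η (B 1) (B 1))
    (h22 : ω (B 2) (B 2) = η (B 2) (B 2)) (h01 : ω (B 0) (B 1) = η (B 0) (B 1))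
    (h02 : ω (B 0) (B 2) = η (B 0) (B 2)) (h12 : ω (B 1) (B 2) = η (B 1) (B 2)) : ω = η := by
  refine B.ext fun i => B.ext fun j => ?_
  fin_cases i <;> fin_cases j
  · exact h00
  · exact h01
  · exact h02
  · exact (hω.symm _ _).trans (h01.trans (hη.symm _ _))
  · exact h11
  · exact h12
  · exact (hω.symm _ _).trans (h02.trans (hη.symm _ _))
  · exact (hω.symm _ _).trans (h12.trans (hη.symm _ _))
  · exact h22

/-- a functional vanishing on a basis -/
lemma dext (B : Basis (Fin 3) (ZMod 2) V) {f g : Dl V} (h0 : f (B 0) = g (B 0))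
    (h1 : f (B 1) = g (B 1)) (h2 : f (B 2) = g (B 2)) : f = g := by
  refine B.ext fun i => ?_
  fin_cases i
  · exact h0
  · exact h1
  · exact h2

/-- ext for diagonal forms -/
lemma diag_ext (B : Basis (Fin 3) (ZMod 2) V) {ω η : Frm V}
    (hω : ∀ i j, i ≠ j → ω (B i) (B j) = 0) (hη : ∀ i j, i ≠ j → η (B i) (B j) = 0)
    (h : ∀ i, ω (B i) (B i) = η (B i) (B i)) : ω = η := by
  refine B.ext fun i => B.ext fun j => ?_
  by_cases hij : i = j
  · rw [hij]; exact h j
  · rw [hω i j hij, hη i j hij]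

lemma cc (B : Basis (Fin 3) (ZMod 2) V) (i j : Fin 3) : B.coord i (B j) = if i = j then 1 else 0 := by
  rw [Basis.coord_apply, Basis.repr_self, Finsupp.single_apply]
  simp only [eq_comm]

lemma sq_diag (B : Basis (Fin 3) (ZMod 2) V) (l i j : Fin 3) (hij : i ≠ j) :
    sqf (B.coord l) (B i) (B j) = 0 := by
  rw [sqf_apply', cc, cc]
  by_cases h1 : l = i
  · have h2 : l ≠ j := fun h => hij (h1.symm.trans h)
    simp [h2]
  · simp [h1]

/-- the link step -/
lemma link (hMC : MC e A) (B : Basis (Fin 3) (ZMod 2) V)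
    (hd : ∀ ω ∈ A, ∀ i j, i ≠ j → ω (B i) (B j) = 0) (i j k : Fin 3) (hij : i ≠ j) (hik : i ≠ k)
    (hjk : j ≠ k) (hcov : ∀ l : Fin 3, l = i ∨ l = j ∨ l = k)
    (h1 : sqf (B.coord i) + sqf (B.coord j) ∈ A) (h2 : sqf (B.coord i) + sqf (B.coord k) ∈ A) :
    sqf (B.coord i) ∈ A := by
  have hL : Linked A := by
    have := hMC.her ⊤
    rwa [res_top] at this
  have e1 : (sqf (B.coord i) + sqf (B.coord j)) (B i + B k) = B.coord i := by
    rw [LinearMap.add_apply, sqf_apply, sqf_apply, map_add, map_add, cc, cc, cc, cc]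
    simp [hij.symm, hik, hjk]
  have e2 : (sqf (B.coord i) + sqf (B.coord k)) (B i + B j) = B.coord i := by
    rw [LinearMap.add_apply, sqf_apply, sqf_apply, map_add, map_add, cc, cc, cc, cc]
    simp [hik.symm, hij, hjk.symm]
  obtain ⟨ζ, hζ, z1, z2⟩ := hL _ h1 _ h2 (B i + B k) (B i + B j) (e1.trans e2.symm)
  rw [e1] at z1 z2
  have d := hd ζ hζ
  have f1 : ∀ l, ζ (B i) (B l) + ζ (B k) (B l) = if i = l then 1 else 0 := by
    intro l
    rw [← cc B i l, ← z1, map_add, LinearMap.add_apply]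
  have f2 : ∀ l, ζ (B i) (B l) + ζ (B j) (B l) = if i = l then 1 else 0 := by
    intro l
    rw [← cc B i l, ← z2, map_add, LinearMap.add_apply]
  have hζ' : ζ = sqf (B.coord i) := by
    refine diag_ext B d (sq_diag B i) fun l => ?_
    rw [sqf_apply', cc]
    rcases hcov l with rfl | rfl | rfl
    · have := f1 l
      rw [d k l hik.symm, add_zero] at this
      rw [this]; simp
    · have := f2 l
      rw [d i l hij, zero_add] at this
      rw [this]; simp [hij]
    · have := f1 l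
      rw [d i l hik, zero_add] at this
      rw [this]; simp [hik]
  rw [← hζ']; exact hζ

/-- case A: an orthogonal basis with sum `e` -/
lemma caseA (hMC : MC e A) (B : Basis (Fin 3) (ZMod 2) V) (hsum : B 0 + B 1 + B 2 = e)
    (h01 : ∀ ω ∈ A, ω (B 0) (B 1) = 0) : False := by
  have h02 : ∀ ω ∈ A, ω (B 0) (B 2) = 0 := by
    intro ω hω
    have h := (hMC.ef ω hω).sq (B 0)
    rw [← hsum, map_add, map_add, h01 ω hω, add_zero] at h
    exact (left_eq_add.1 h)
  have h12 : ∀ ω ∈ A, ω (B 1) (B 2) = 0 := by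
    intro ω hω
    have h := (hMC.ef ω hω).sq (B 1)
    rw [← hsum, map_add, map_add, (hMC.ef ω hω).symm (B 1) (B 0), h01 ω hω, zero_add] at h
    exact (left_eq_add.1 h)
  have hd : ∀ ω ∈ A, ∀ i j, i ≠ j → ω (B i) (B j) = 0 := by
    intro ω hω i j hij
    have hs := (hMC.ef ω hω).symm
    fin_cases i <;> fin_cases j
    · exact absurd rfl hij
    · exact h01 ω hω
    · exact h02 ω hω
    · exact (hs _ _).trans (h01 ω hω)
    · exact absurd rfl hij
    · exact h12 ω hω
    · exact (hs _ _).trans (h02 ω hω)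
    · exact (hs _ _).trans (h12 ω hω)
    · exact absurd rfl hij
  have hce : ∀ i, B.coord i e = 1 := by
    intro i
    rw [← hsum, map_add, map_add, cc, cc, cc]
    fin_cases i <;> rfl
  have hval : ∀ ω ∈ A, ∀ i, ω (B i) = ω (B i) (B i) • B.coord i := by
    intro ω hω i
    refine B.ext fun j => ?_
    rw [LinearMap.smul_apply, cc]
    by_cases hij : i = j
    · rw [hij]; simp
    · rw [hd ω hω i j hij]; simp [hij]
  have hS : ∀ i, sqf (B.coord i) ∉ A := by
    intro i hi
    refine spl hMC (b := B i) (B.ne_zero i) (by rw [cc]; simp) (hce i) hi fun ω hω => ?_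
    rw [hval ω hω i]
    rcases z01 (ω (B i) (B i)) with h | h
    · left; rw [h, zero_smul]
    · right; rw [h, one_smul]
  let P : ZMod 2 → ZMod 2 → ZMod 2 → Prop := fun a b c =>
    a • sqf (B.coord 0) + b • sqf (B.coord 1) + c • sqf (B.coord 2) ∈ A
  have hPe : ∀ ω ∈ A, ω = ω (B 0) (B 0) • sqf (B.coord 0) + ω (B 1) (B 1) • sqf (B.coord 1) +
      ω (B 2) (B 2) • sqf (B.coord 2) := by
    intro ω hω
    refine diag_ext B (hd ω hω) (fun i j hij => ?_) fun i => ?_
    · simp only [LinearMap.add_apply, LinearMap.smul_apply]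
      rw [sq_diag B 0 i j hij, sq_diag B 1 i j hij, sq_diag B 2 i j hij]
      simp
    · simp only [LinearMap.add_apply, LinearMap.smul_apply, sqf_apply', cc]
      fin_cases i <;> simp
  apply hMC.nel
  refine one_el hMC.ef fun ω hω η hη hω0 hη0 => ?_
  have hP : ∀ ω ∈ A, P (ω (B 0) (B 0)) (ω (B 1) (B 1)) (ω (B 2) (B 2)) := by
    intro ω hω
    show _ ∈ A
    rw [← hPe ω hω]; exact hω
  have h0 : ∀ ω ∈ A, ω ≠ 0 → ¬ (ω (B 0) (B 0) = 0 ∧ ω (B 1) (B 1) = 0 ∧ ω (B 2) (B 2) = 0) := by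
    rintro ω hω hω0 ⟨h1, h2, h3⟩
    apply hω0
    rw [hPe ω hω, h1, h2, h3]; simp
  have c01 : ∀ l : Fin 3, l = 0 ∨ l = 1 ∨ l = 2 := by decide
  have c02 : ∀ l : Fin 3, l = 1 ∨ l = 0 ∨ l = 2 := by decide
  have c03 : ∀ l : Fin 3, l = 2 ∨ l = 0 ∨ l = 1 := by decide
  have k1 : ¬ P 1 0 0 := by
    intro h
    have h : (1 : ZMod 2) • sqf (B.coord 0) + (0 : ZMod 2) • sqf (B.coord 1) +
      (0 : ZMod 2) • sqf (B.coord 2) ∈ A := h
    rw [zero_smul, zero_smul, add_zero, add_zero, one_smul] at h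
    exact hS 0 h
  have k2 : ¬ P 0 1 0 := by
    intro h
    have h : (0 : ZMod 2) • sqf (B.coord 0) + (1 : ZMod 2) • sqf (B.coord 1) +
      (0 : ZMod 2) • sqf (B.coord 2) ∈ A := h
    rw [zero_smul, zero_smul, add_zero, zero_add, one_smul] at h
    exact hS 1 h
  have k3 : ¬ P 0 0 1 := by
    intro h
    have h : (0 : ZMod 2) • sqf (B.coord 0) + (0 : ZMod 2) • sqf (B.coord 1) +
      (1 : ZMod 2) • sqf (B.coord 2) ∈ A := h
    rw [zero_smul, zero_smul, zero_add, zero_add, one_smul] at h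
    exact hS 2 h
  have k4 : ∀ a b c a' b' c', P a b c → P a' b' c' → P (a + a') (b + b') (c + c') := by
    intro a b c a' b' c' h h'
    have h1 := A.add_mem (show _ ∈ A from h) (show _ ∈ A from h')
    show _ ∈ A
    convert h1 using 1
    simp only [add_smul]
    abel
  have k5 : ¬ (P 1 1 0 ∧ P 1 0 1) := by
    rintro ⟨h, h'⟩
    have h : (1 : ZMod 2) • sqf (B.coord 0) + (1 : ZMod 2) • sqf (B.coord 1) +
      (0 : ZMod 2) • sqf (B.coord 2) ∈ A := h
    have h' : (1 : ZMod 2) • sqf (B.coord 0) + (0 : ZMod 2) • sqf (B.coord 1) +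
      (1 : ZMod 2) • sqf (B.coord 2) ∈ A := h'
    rw [zero_smul, add_zero, one_smul, one_smul] at h
    rw [zero_smul, add_zero, one_smul, one_smul] at h'
    exact hS 0 (link hMC B hd 0 1 2 (by decide) (by decide) (by decide) c01 h h')
  have k6 : ¬ (P 1 1 0 ∧ P 0 1 1) := by
    rintro ⟨h, h'⟩
    have h : (1 : ZMod 2) • sqf (B.coord 0) + (1 : ZMod 2) • sqf (B.coord 1) +
      (0 : ZMod 2) • sqf (B.coord 2) ∈ A := h
    have h' : (0 : ZMod 2) • sqf (B.coord 0) + (1 : ZMod 2) • sqf (B.coord 1) +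
      (1 : ZMod 2) • sqf (B.coord 2) ∈ A := h'
    rw [zero_smul, add_zero, one_smul, one_smul, add_comm] at h
    rw [zero_smul, zero_add, one_smul, one_smul] at h'
    exact hS 1 (link hMC B hd 1 0 2 (by decide) (by decide) (by decide) c02 h h')
  have k7 : ¬ (P 1 0 1 ∧ P 0 1 1) := by
    rintro ⟨h, h'⟩
    have h : (1 : ZMod 2) • sqf (B.coord 0) + (0 : ZMod 2) • sqf (B.coord 1) +
      (1 : ZMod 2) • sqf (B.coord 2) ∈ A := h
    have h' : (0 : ZMod 2) • sqf (B.coord 0) + (1 : ZMod 2) • sqf (B.coord 1) +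
      (1 : ZMod 2) • sqf (B.coord 2) ∈ A := h'
    rw [zero_smul, add_zero, one_smul, one_smul, add_comm] at h
    rw [zero_smul, zero_add, one_smul, one_smul, add_comm] at h'
    exact hS 2 (link hMC B hd 2 0 1 (by decide) (by decide) (by decide) c03 h h')
  obtain ⟨g0, g1, g2⟩ := comb P k1 k2 k3 k4 k5 k6 k7 _ _ _ _ _ _ (hP ω hω) (hP η hη)
    (h0 ω hω hω0) (h0 η hη hη0)
  exact diag_ext B (hd ω hω) (hd η hη) fun i => by
    fin_cases i
    · exact g0
    · exact g1
    · exact g2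

/-- case B: `e` is orthogonal to two further basis vectors -/
lemma caseB (hMC : MC e A) (B : Basis (Fin 3) (ZMod 2) V) (he : B 0 = e)
    (h01 : ∀ ω ∈ A, ω (B 0) (B 1) = 0) (h02 : ∀ ω ∈ A, ω (B 0) (B 2) = 0) : False := by
  have hs := fun ω hω => (hMC.ef ω hω).symm
  have h11 : ∀ ω ∈ A, ω (B 1) (B 1) = 0 := by
    intro ω hω
    rw [(hMC.ef ω hω).sq, ← he, (hMC.ef ω hω).symm, h01 ω hω]
  have h22 : ∀ ω ∈ A, ω (B 2) (B 2) = 0 := by
    intro ω hω
    rw [(hMC.ef ω hω).sq, ← he, (hMC.ef ω hω).symm, h02 ω hω]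
  have hse : B.coord 0 e = 1 := by rw [← he, cc]; simp
  have hval : ∀ ω ∈ A, ω (B 0) = ω (B 0) (B 0) • B.coord 0 := by
    intro ω hω
    refine dext B ?_ ?_ ?_
    · rw [LinearMap.smul_apply, cc]; simp
    · rw [LinearMap.smul_apply, cc, h01 ω hω]; simp
    · rw [LinearMap.smul_apply, cc, h02 ω hω]; simp
  have hS : sqf (B.coord 0) ∉ A := by
    intro hi
    refine spl hMC (b := B 0) (B.ne_zero 0) (by rw [cc]; simp) hse hi fun ω hω => ?_
    rw [hval ω hω]
    rcases z01 (ω (B 0) (B 0)) with h | h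
    · left; rw [h, zero_smul]
    · right; rw [h, one_smul]
  have hext : ∀ ω ∈ A, ∀ η ∈ A, ω (B 0) (B 0) = η (B 0) (B 0) → ω (B 1) (B 2) = η (B 1) (B 2) →
      ω = η := by
    intro ω hω η hη h1 h2
    refine fext B (hMC.ef ω hω) (hMC.ef η hη) h1 ?_ ?_ ?_ ?_ h2
    · rw [h11 ω hω, h11 η hη]
    · rw [h22 ω hω, h22 η hη]
    · rw [h01 ω hω, h01 η hη]
    · rw [h02 ω hω, h02 η hη]
  -- no member with `ω e e = 1` and `ω x y = 0`
  have hno : ∀ ω ∈ A, ω (B 0) (B 0) = 1 → ω (B 1) (B 2) = 0 → False := by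
    intro ω hω h1 h2
    apply hS
    have : ω = sqf (B.coord 0) := by
      refine fext B (hMC.ef ω hω) (sqf_ef hse) ?_ ?_ ?_ ?_ ?_ ?_
      · rw [h1, sqf_apply', cc]; simp
      · rw [h11 ω hω, sqf_apply', cc]; simp
      · rw [h22 ω hω, sqf_apply', cc]; simp
      · rw [h01 ω hω, sqf_apply', cc, cc]; simp
      · rw [h02 ω hω, sqf_apply', cc, cc]; simp
      · rw [h2, sqf_apply', cc, cc]; simp
    rw [← this]; exact hω
  apply hMC.nel
  refine one_el hMC.ef fun ω hω η hη hω0 hη0 => ?_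
  -- both have `ω x y = 1`
  have hxy : ∀ ω ∈ A, ω ≠ 0 → ω (B 1) (B 2) = 1 := by
    intro ω hω hω0
    by_contra hc
    have h2 := z_ne' hc
    rcases z01 (ω (B 0) (B 0)) with h | h
    · exact hω0 (hext ω hω 0 A.zero_mem h h2)
    · exact hno ω hω h h2
  have g1 := hxy ω hω hω0
  have g2 := hxy η hη hη0
  refine hext ω hω η hη ?_ (g1.trans g2.symm)
  by_contra hc
  refine hno (ω + η) (A.add_mem hω hη) ?_ ?_
  · rw [LinearMap.add_apply, LinearMap.add_apply]
    rcases z01 (ω (B 0) (B 0)) with h | h <;> rcases z01 (η (B 0) (B 0)) with h' | h'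
    · exact absurd (h.trans h'.symm) hc
    · rw [h, h', zero_add]
    · rw [h, h', add_zero]
    · exact absurd (h.trans h'.symm) hc
  · rw [LinearMap.add_apply, LinearMap.add_apply, g1, g2]; decide

/-- the case `e = 0` -/
lemma case0 (hRIG : S_RIG) (hMC : MC (0 : V) A) (hn : finrank (ZMod 2) V ≤ 3) : False := by
  have alt : ∀ ω ∈ A, ∀ a : V, ω a a = 0 := fun ω hω a => by rw [(hMC.ef ω hω).sq, map_zero]
  have horth : ∀ u : V, u ≠ 0 → ∃ y : V, y ≠ 0 ∧ y ≠ u ∧ ∀ ω ∈ A, ω u y = 0 := by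
    intro u hu
    obtain ⟨x, hx, -, -, y, hy0, hy1, hy⟩ := rr' hRIG hMC hu hu
    rw [add_zero] at hx hy1
    have : x = u := hx.elim id id
    subst this
    exact ⟨y, hy0, hy1, hy⟩
  by_cases hex : ∃ u : V, u ≠ 0
  · obtain ⟨x, hx⟩ := hex
    obtain ⟨y, hy0, hyx, hxy⟩ := horth x hx
    by_cases hz : ∃ z : V, z ≠ 0 ∧ z ≠ x ∧ z ≠ y ∧ z ≠ x + y
    · obtain ⟨z, hz0, hzx, hzy, hzxy⟩ := hz
      obtain ⟨B, hB0, hB1, hB2⟩ := mkB hn hx hy0 hyx hz0 hzx hzy hzxy
      obtain ⟨w, hw0, hwz, hzw⟩ := horth z hz0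
      obtain ⟨w', hw'⟩ : ∃ w', w' = B.coord 0 w • x + B.coord 1 w • y := ⟨_, rfl⟩
      have hww : w = w' + B.coord 2 w • z := by
        have h := B.sum_repr w
        rw [Fin.sum_univ_three, hB0, hB1, hB2] at h
        rw [hw']
        exact h.symm
      have hw'0 : w' ≠ 0 := by
        intro h0
        rw [h0, zero_add] at hww
        rcases z01 (B.coord 2 w) with h | h
        · rw [h, zero_smul] at hww; exact hw0 hww
        · rw [h, one_smul] at hww; exact hwz hww
      refine kk hMC hw'0 fun ω hω => ?_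
      have hs := (hMC.ef ω hω).symm
      refine dext B ?_ ?_ ?_
      · rw [hB0, hw', map_add, map_smul, map_smul, LinearMap.add_apply, LinearMap.smul_apply,
          LinearMap.smul_apply, alt ω hω, hs y x, hxy ω hω]
        simp
      · rw [hB1, hw', map_add, map_smul, map_smul, LinearMap.add_apply, LinearMap.smul_apply,
          LinearMap.smul_apply, alt ω hω, hxy ω hω]
        simp
      · have h := hzw ω hω
        rw [hww, map_add, map_smul, alt ω hω, smul_zero, add_zero] at h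
        rw [hB2, hs, h]; rfl
    · push Not at hz
      refine kk hMC hx fun ω hω => LinearMap.ext fun v => ?_
      by_cases h1 : v = 0
      · rw [h1, map_zero]; rfl
      by_cases h2 : v = x
      · rw [h2, alt ω hω]; rfl
      by_cases h3 : v = y
      · rw [h3, hxy ω hω]; rfl
      rw [hz v h1 h2 h3, map_add, alt ω hω, hxy ω hω, add_zero]; rfl
  · push Not at hex
    apply hMC.nel
    refine one_el hMC.ef fun ω hω η hη hω0 hη0 => ?_
    exact absurd (LinearMap.ext fun a => by rw [hex a, map_zero, map_zero]) hω0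

/-- the case `e ≠ 0` -/
lemma case1 (hRIG : S_RIG) (hMC : MC e A) (he : e ≠ 0) (hn : finrank (ZMod 2) V ≤ 3) : False := by
  by_cases hA : ∃ x y : V, x ≠ 0 ∧ x ≠ e ∧ y ≠ 0 ∧ y ≠ e ∧ y ≠ x ∧ y ≠ x + e ∧ ∀ ω ∈ A, ω x y = 0
  · obtain ⟨x, y, hx0, hxe, hy0, hye, hyx, hyxe, hxy⟩ := hA
    have q1 : e + x + y ≠ 0 := fun h => hyxe (by rw [add_comm x e]; exact (az.1 h).symm)
    have q2 : e + x + y ≠ x := by
      intro h
      have h2 : e + y = 0 := by
        have h3 : e + x + y = (e + y) + x := by abel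
        rw [h3] at h
        exact left_eq_add.1 (by rw [add_comm]; exact h.symm)
      exact hye (az.1 h2).symm
    have q3 : e + x + y ≠ y := by
      intro h
      have h2 : e + x = 0 := left_eq_add.1 (by rw [add_comm]; exact h.symm)
      exact hxe (az.1 h2).symm
    have q4 : e + x + y ≠ x + y := by
      intro h
      have h3 : e + x + y = e + (x + y) := by abel
      rw [h3] at h
      exact he (left_eq_add.1 (by rw [add_comm]; exact h.symm))
    obtain ⟨B, hB0, hB1, hB2⟩ := mkB hn hx0 hy0 hyx q1 q2 q3 q4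
    refine caseA hMC B ?_ ?_
    · rw [hB0, hB1, hB2]
      have h3 : x + y + (e + x + y) = e + ((x + y) + (x + y)) := by abel
      rw [h3, vadd, add_zero]
    · intro ω hω
      rw [hB0, hB1]; exact hxy ω hω
  · push Not at hA
    have ho : ∀ u : V, u ≠ 0 → u ≠ e →
        ∃ x, (x = u ∨ x = u + e) ∧ x ≠ 0 ∧ x ≠ e ∧ ∀ ω ∈ A, ω x e = 0 := by
      intro u hu hue
      obtain ⟨x, hx, hx0, hxe, y, hy0, hy1, hy⟩ := rr' hRIG hMC hu hue
      refine ⟨x, hx, hx0, hxe, fun ω hω => ?_⟩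
      by_cases h1 : y = e
      · rw [← h1]; exact hy ω hω
      by_cases h2 : y = x
      · rw [← (hMC.ef ω hω).sq x]
        rw [h2] at hy
        exact hy ω hω
      obtain ⟨ω', hω', h⟩ := hA x y hx0 hxe hy0 h1 h2 hy1
      exact absurd (hy ω' hω') h
    by_cases hex : ∃ u : V, u ≠ 0 ∧ u ≠ e
    · obtain ⟨u, hu0, hue⟩ := hex
      obtain ⟨x, -, hx0, hxe, hx⟩ := ho u hu0 hue
      by_cases hex2 : ∃ v : V, v ≠ 0 ∧ v ≠ e ∧ v ≠ x ∧ v ≠ e + x
      · obtain ⟨v, hv0, hve, hvx, hvex⟩ := hex2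
        obtain ⟨y, hyv, hy0, hye, hy⟩ := ho v hv0 hve
        have hyx : y ≠ x := by
          intro h
          rcases hyv with h1 | h1
          · exact hvx (h1.symm.trans h)
          · apply hvex
            rw [← h, h1, add_comm v e, add_cancel_left']
        have hyex : y ≠ e + x := by
          intro h
          rcases hyv with h1 | h1
          · exact hvex (h1.symm.trans h)
          · apply hvx
            have h2 : e + y = e + (e + x) := by rw [h]
            rw [add_cancel_left', h1, add_comm v e, add_cancel_left'] at h2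
            exact h2
        obtain ⟨B, hB0, hB1, hB2⟩ := mkB hn he hx0 hxe hy0 hye hyx hyex
        refine caseB hMC B hB0 ?_ ?_
        · intro ω hω
          rw [hB0, hB1, (hMC.ef ω hω).symm]; exact hx ω hω
        · intro ω hω
          rw [hB0, hB2, (hMC.ef ω hω).symm]; exact hy ω hω
      · push Not at hex2
        refine kk hMC hx0 fun ω hω => LinearMap.ext fun v => ?_
        have hxx : ω x x = 0 := by rw [(hMC.ef ω hω).sq]; exact hx ω hω
        by_cases h1 : v = 0
        · rw [h1, map_zero]; rfl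
        by_cases h2 : v = e
        · rw [h2, hx ω hω]; rfl
        by_cases h3 : v = x
        · rw [h3, hxx]; rfl
        rw [hex2 v h1 h2 h3, map_add, hx ω hω, hxx, add_zero]; rfl
    · push Not at hex
      apply hMC.nel
      refine one_el hMC.ef fun ω hω η hη hω0 hη0 => ?_
      have hone : ∀ ω : Frm V, ω ≠ 0 → ω e e = 1 := by
        intro ω h0
        by_contra hc
        have hc := z_ne' hc
        apply h0
        refine LinearMap.ext fun a => LinearMap.ext fun b => ?_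
        by_cases ha : a = 0
        · rw [ha, map_zero]; rfl
        by_cases hb : b = 0
        · rw [hb, map_zero]; rfl
        rw [hex a ha, hex b hb, hc]; rfl
      refine LinearMap.ext fun a => LinearMap.ext fun b => ?_
      by_cases ha : a = 0
      · rw [ha, map_zero, map_zero]
      by_cases hb : b = 0
      · rw [hb, map_zero, map_zero]
      rw [hex a ha, hex b hb, hone ω hω0, hone η hη0]

end

theorem t_N3 (hRIG : S_RIG) : S_N3 := by
  intro V _ _ _ e A hMC hn
  by_cases he : e = 0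
  · subst he
    exact case0 hRIG hMC hn
  · exact case1 hRIG hMC he hn

end Pool.Agent.W140.ELG
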